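import Mathlib
import Pool.Agent.TH942.Par
import Pool.Agent.H437R2.Man.MWWeak

/-!
# The theorem of Mordell and Weil for `y² = x³ + a x + b` over a number field
-/

set_option autoImplicit false

open WeierstrassCurve Height Polynomial

namespace Pool.Agent.TH942

/-- transport along an equality of curves -/
theorem fg_of_eq {K : Type} [Field K] [DecidableEq K] {W W' : WeierstrassCurve.Affine K}
    (h : W = W') (hW : AddGroup.FG W.Point) : AddGroup.FG W'.Point := by
  subst h
  exact hW

/-- a subgroup of a finitely generated abelian group -/
theorem fg_of_inj {A B : Type} [AddCommGroup A] [AddCommGroup B] (f : A →+ B)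
    (hf : Function.Injective f) (hB : AddGroup.FG B) : AddGroup.FG A := by
  rw [← Module.Finite.iff_addGroup_fg] at hB ⊢
  have : IsNoetherian ℤ B := inferInstance
  exact Module.Finite.of_injective f.toIntLinearMap hf

theorem sfg {F : Type} [Field F] [NumberField F] [DecidableEq F] {a b : F}
    (hab : 4 * a ^ 3 + 27 * b ^ 2 ≠ 0) : AddGroup.FG (SPt a b) := by
  classical
  let P : Cubic F := ⟨1, 0, a, b⟩
  let K : Type := P.toPoly.SplittingField
  have : CharZero K := charZero_of_injective_algebraMap (algebraMap F K).injective
  have : NumberField K := by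
    have : FiniteDimensional F K := inferInstanceAs (FiniteDimensional F P.toPoly.SplittingField)
    letI : Algebra ℚ K := inferInstance
    have : FiniteDimensional ℚ K := FiniteDimensional.trans ℚ F K
    exact { to_charZero := inferInstance, to_finiteDimensional := this }
  have ha : P.a ≠ 0 := one_ne_zero
  have hsp : Splits (P.toPoly.map (algebraMap F K)) := SplittingField.splits P.toPoly
  obtain ⟨x, y, z, h3⟩ := (Cubic.splits_iff_roots_eq_three ha).1 hsp
  have hdisc : P.discr ≠ 0 := by
    have h : P.discr = -(4 * a ^ 3 + 27 * b ^ 2) := by
      simp only [Cubic.discr, P]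
      ring
    rw [h, neg_ne_zero]
    exact hab
  obtain ⟨hxy, hxz, hyz⟩ := (Cubic.discr_ne_zero_iff_roots_ne ha h3).1 hdisc
  have hb := Cubic.b_eq_three_roots ha h3
  have hc := Cubic.c_eq_three_roots ha h3
  have hd := Cubic.d_eq_three_roots ha h3
  simp only [P, map_one, map_zero, one_mul] at hb hc hd
  have hK : AddGroup.FG (Pool.Agent.H437R2.Man.MW.crv (-x) (-y) (-z)).toAffine.Point :=
    Pool.Agent.H437R2.Man.MW.pt_fg (fun h => hxy (neg_injective h)) (fun h => hxz (neg_injective h))
      (fun h => hyz (neg_injective h))
  have heq : (Pool.Agent.H437R2.Man.MW.crv (-x) (-y) (-z)).toAffine =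
      ((sw a b).baseChange K) := by
    apply WeierstrassCurve.ext
    · change (0 : K) = algebraMap F K 0
      rw [map_zero]
    · change -x + -y + -z = algebraMap F K 0
      rw [map_zero]
      linear_combination -hb
    · change (0 : K) = algebraMap F K 0
      rw [map_zero]
    · change -x * -y + -x * -z + -y * -z = algebraMap F K a
      linear_combination -hc
    · change -x * -y * -z = algebraMap F K b
      linear_combination -hd
  have hK' : AddGroup.FG ((sw a b).baseChange K).toAffine.Point := fg_of_eq heq hK
  have hinj := WeierstrassCurve.Affine.Point.map_injective (W' := sw a b)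
    (Algebra.ofId F K)
  exact fg_of_inj _ hinj hK'

end Pool.Agent.TH942
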