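import Mathlib
import Pool.Agent.TH942.Count

/-!
# Counting in a finitely generated group with an approximately quadratic height, II
-/

set_option autoImplicit false
set_option linter.unusedSectionVars false

open MeasureTheory Filter Topology Matrix Bornology Pointwise

namespace Pool.Agent.TH942

section basis

variable {A : Type} [AddCommGroup A]

/-- `g` is a basis of `A` modulo torsion: every element is, in a unique way, an integral
combination of the `g i` plus an element of finite order. -/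
def IsBasisModTors {ι : Type} [Fintype ι] (g : ι → A) : Prop :=
  ∀ P : A, ∃! n : ι → ℤ, IsOfFinAddOrder (P - ∑ i, n i • g i)

theorem exists_basis (hA : AddGroup.FG A) : ∃ (r : ℕ) (g : Fin r → A), IsBasisModTors g := by
  obtain ⟨r, κ, _, p, hp, e, ⟨f⟩⟩ := AddCommGroup.equiv_free_prod_directSum_zmod A
  have hne : ∀ i : κ, NeZero (p i ^ e i) := fun i => ⟨pow_ne_zero _ (hp i).ne_zero⟩
  have hfin : Finite (DirectSum κ fun i => ZMod (p i ^ e i)) := by
    classical
    have : Finite (∀ i : κ, ZMod (p i ^ e i)) := inferInstance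
    exact Finite.of_injective (fun x : DirectSum κ fun i => ZMod (p i ^ e i) =>
      (fun i => x i)) (fun x y h => DFinsupp.ext fun i => congrFun h i)
  refine ⟨r, fun i => f.symm (Finsupp.single i 1, 0), ?_⟩
  have hsum : ∀ n : Fin r → ℤ, f (∑ i, n i • f.symm (Finsupp.single i 1, 0)) =
      (Finsupp.equivFunOnFinite.symm n, 0) := by
    intro n
    rw [map_sum]
    simp only [map_zsmul, AddEquiv.apply_symm_apply, Prod.smul_mk, smul_zero]
    rw [Prod.ext_iff]
    constructor
    · simp only [Prod.fst_sum]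
      ext j
      simp [Finsupp.finsetSum_apply, Finsupp.single_apply]
    · simp [Prod.snd_sum]
  have htor : ∀ x : (Fin r →₀ ℤ) × (DirectSum κ fun i => ZMod (p i ^ e i)),
      IsOfFinAddOrder x ↔ x.1 = 0 := by
    intro x
    rw [isOfFinAddOrder_iff_nsmul_eq_zero]
    constructor
    · rintro ⟨n, hn, h⟩
      have h1 := congrArg Prod.fst h
      simp only [Prod.smul_fst, Prod.fst_zero] at h1
      rcases smul_eq_zero.1 h1 with h2 | h2
      · omega
      · exact h2
    · intro h
      obtain ⟨n, hn, h2⟩ := isOfFinAddOrder_iff_nsmul_eq_zero.1 (isOfFinAddOrder_of_finite x.2)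
      refine ⟨n, hn, ?_⟩
      rw [Prod.ext_iff]
      exact ⟨by simp [h], by simpa using h2⟩
  intro P
  have key : ∀ n : Fin r → ℤ, IsOfFinAddOrder (P - ∑ i, n i • f.symm (Finsupp.single i 1, 0)) ↔
      n = fun i => (f P).1 i := by
    intro n
    have h1 := Function.Injective.isOfFinAddOrder_iff (f := f.toAddMonoidHom) f.injective
      (x := P - ∑ i, n i • f.symm (Finsupp.single i 1, 0))
    rw [← h1]
    change IsOfFinAddOrder (f (P - ∑ i, n i • f.symm (Finsupp.single i 1, 0))) ↔ _
    rw [map_sub, hsum, htor, Prod.fst_sub, sub_eq_zero]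
    constructor
    · intro h
      ext i
      rw [h]
      rfl
    · intro h
      ext i
      rw [h]
      rfl
  refine ⟨fun i => (f P).1 i, (key _).2 rfl, fun n hn => (key n).1 hn⟩

variable {ι : Type} [Fintype ι]

/-- The coordinates. -/
noncomputable def crd {g : ι → A} (hg : IsBasisModTors g) (P : A) : ι → ℤ := (hg P).choose

lemma crd_spec {g : ι → A} (hg : IsBasisModTors g) (P : A) :
    IsOfFinAddOrder (P - ∑ i, crd hg P i • g i) := (hg P).choose_spec.1

lemma crd_eq {g : ι → A} (hg : IsBasisModTors g) {P : A} {n : ι → ℤ}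
    (h : IsOfFinAddOrder (P - ∑ i, n i • g i)) : crd hg P = n :=
  ((hg P).choose_spec.2 n h).symm

lemma fin_add {P Q : A} (hP : IsOfFinAddOrder P) (hQ : IsOfFinAddOrder Q) :
    IsOfFinAddOrder (P + Q) :=
  (AddCommGroup.torsion A).add_mem hP hQ

lemma fin_neg {P : A} (hP : IsOfFinAddOrder P) : IsOfFinAddOrder (-P) :=
  (AddCommGroup.torsion A).neg_mem hP

/-- The coordinates as a homomorphism. -/
noncomputable def crdHom {g : ι → A} (hg : IsBasisModTors g) : A →+ (ι → ℤ) :=
  AddMonoidHom.mk' (crd hg) (fun P Q => crd_eq hg (by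
    have h1 := fin_add (crd_spec hg P) (crd_spec hg Q)
    have h2 : P - ∑ i, crd hg P i • g i + (Q - ∑ i, crd hg Q i • g i) =
        P + Q - ∑ i, (crd hg P + crd hg Q) i • g i := by
      simp only [Pi.add_apply, add_smul, Finset.sum_add_distrib]
      abel
    rwa [h2] at h1))

lemma crdHom_surj {g : ι → A} (hg : IsBasisModTors g) : Function.Surjective (crdHom hg) := by
  intro n
  refine ⟨∑ i, n i • g i, crd_eq hg ?_⟩
  rw [sub_self]
  exact IsOfFinAddOrder.zero

lemma crdHom_ker {g : ι → A} (hg : IsBasisModTors g) :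
    (crdHom hg).ker = AddCommGroup.torsion A := by
  ext P
  rw [AddMonoidHom.mem_ker]
  change crd hg P = 0 ↔ IsOfFinAddOrder P
  constructor
  · intro h
    have := crd_spec hg P
    rw [h] at this
    simpa using this
  · intro h
    apply crd_eq hg
    simpa using h

/-- A basis modulo torsion has `rank` elements. -/
theorem card_basis {g : ι → A} (hg : IsBasisModTors g) :
    Module.finrank ℤ A = Fintype.card ι := by
  have hk : LinearMap.ker (crdHom hg).toIntLinearMap =
      AddSubgroup.toIntSubmodule (AddCommGroup.torsion A) := by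
    rw [← crdHom_ker hg]
    rfl
  have e := (crdHom hg).toIntLinearMap.quotKerEquivOfSurjective (crdHom_surj hg)
  rw [hk] at e
  have h1 := e.finrank_eq
  rw [Module.finrank_fintype_fun_eq_card] at h1
  rw [← finrank_quotient_torsion_eq]
  exact h1

end basis

section quad

variable {A : Type} [AddCommGroup A] {ι : Type} [Fintype ι] [DecidableEq ι]

/-- The Gram matrix of a function satisfying the parallelogram law. -/
noncomputable def gram (q : A → ℝ) (g : ι → A) : Matrix ι ι ℝ :=
  Matrix.of fun i j => (q (g i + g j) - q (g i) - q (g j)) / 2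

lemma q_zero (q : A → ℝ) (hq : ∀ P Q, q (P + Q) + q (P - Q) = 2 * (q P + q Q)) : q 0 = 0 := by
  have := hq 0 0
  rw [add_zero, sub_zero] at this
  linarith

/-- The quadratic form on integral combinations. -/
lemma q_comb (q : A → ℝ) (hq : ∀ P Q, q (P + Q) + q (P - Q) = 2 * (q P + q Q)) (g : ι → A)
    (t : A) (ht : IsOfFinAddOrder t) (c : ι → ℤ) :
    q (∑ i, c i • g i + t) = ∑ i, ∑ j, (c i : ℝ) * (c j : ℝ) * gram q g i j := by
  obtain ⟨B, hB1, hB2⟩ := H437R2.Man.MW.polar q hq
  have hgram : ∀ i j, gram q g i j = B (g i) (g j) := by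
    intro i j
    simp only [gram, Matrix.of_apply]
    rw [← hB1, ← hB1, ← hB1]
    simp only [map_add, AddMonoidHom.add_apply]
    rw [hB2 (g j) (g i)]
    ring
  have ht0 : ∀ P, B P t = 0 := by
    intro P
    obtain ⟨n, hn, h⟩ := isOfFinAddOrder_iff_nsmul_eq_zero.1 ht
    have h1 : B P (n • t) = 0 := by rw [h, map_zero]
    rw [map_nsmul, smul_eq_zero] at h1
    rcases h1 with h2 | h2
    · omega
    · exact h2
  have hsplit : B (∑ i, c i • g i + t) (∑ i, c i • g i + t) =
      B (∑ i, c i • g i) (∑ i, c i • g i) := by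
    rw [map_add (B (∑ i, c i • g i + t)), ht0, map_add B, AddMonoidHom.add_apply, hB2 t, ht0]
    ring
  rw [← hB1, hsplit]
  simp only [map_sum, map_zsmul, AddMonoidHom.finsetSum_apply, AddMonoidHom.smul_apply, add_zero]
  rw [Finset.sum_comm]
  apply Finset.sum_congr rfl
  intro i _
  rw [Finset.smul_sum]
  apply Finset.sum_congr rfl
  intro j _
  rw [hgram]
  simp only [zsmul_eq_mul]
  ring

lemma gram_symm (q : A → ℝ) (g : ι → A) (i j : ι) : gram q g i j = gram q g j i := by
  simp only [gram, Matrix.of_apply]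
  rw [add_comm (g i)]
  ring

lemma exists_sqrt {G : Matrix ι ι ℝ} (hG : G.PosSemidef) :
    ∃ M : Matrix ι ι ℝ, G = Mᴴ * M := by
  open scoped MatrixOrder in
  exact CStarAlgebra.nonneg_iff_eq_star_mul_self.mp hG.nonneg

lemma posSemidef_of_int' (G : Matrix ι ι ℝ) (hG : ∀ i j, G i j = G j i)
    (hp : ∀ c : ι → ℤ, 0 ≤ ∑ i, ∑ j, (c i : ℝ) * (c j : ℝ) * G i j) : G.PosSemidef := by
  apply Matrix.PosSemidef.of_dotProduct_mulVec_nonneg
  · ext i j
    simp [hG i j]
  · intro x
    have h1 : star x ⬝ᵥ (G *ᵥ x) = ∑ i, ∑ j, x i * x j * G i j := by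
      simp only [dotProduct, mulVec, star_trivial]
      apply Finset.sum_congr rfl
      intro i _
      rw [Finset.mul_sum]
      apply Finset.sum_congr rfl
      intro j _
      ring
    rw [h1]
    have h2 : Tendsto (fun N : ℕ => ∑ i, ∑ j, ((⌊(N : ℝ) * x i⌋ : ℝ) / N) *
        ((⌊(N : ℝ) * x j⌋ : ℝ) / N) * G i j) atTop (𝓝 (∑ i, ∑ j, x i * x j * G i j)) := by
      apply tendsto_finsetSum
      intro i _
      apply tendsto_finsetSum
      intro j _
      exact ((H437R2.Man.MW.tendsto_floor_mul_div (x i)).mul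
        (H437R2.Man.MW.tendsto_floor_mul_div (x j))).mul_const _
    refine ge_of_tendsto' h2 (fun N => ?_)
    have h3 := hp (fun i => ⌊(N : ℝ) * x i⌋)
    have h4 : ∑ i, ∑ j, ((⌊(N : ℝ) * x i⌋ : ℝ) / N) * ((⌊(N : ℝ) * x j⌋ : ℝ) / N) * G i j =
        (∑ i, ∑ j, (⌊(N : ℝ) * x i⌋ : ℝ) * (⌊(N : ℝ) * x j⌋ : ℝ) * G i j) / (N : ℝ) ^ 2 := by
      rw [Finset.sum_div]
      apply Finset.sum_congr rfl
      intro i _
      rw [Finset.sum_div]
      apply Finset.sum_congr rfl
      intro j _
      ring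
    rw [h4]
    exact div_nonneg h3 (by positivity)

lemma emb_gram {G M : Matrix ι ι ℝ} (hM : G = Mᴴ * M) (c : ι → ℤ) :
    ‖emb M (fun i => (c i : ℝ))‖ ^ 2 = ∑ i, ∑ j, (c i : ℝ) * (c j : ℝ) * G i j := by
  rw [emb_sq]
  have h1 : ∑ i, ∑ j, (c i : ℝ) * (c j : ℝ) * G i j =
      (fun i => (c i : ℝ)) ⬝ᵥ (G *ᵥ (fun i => (c i : ℝ))) := by
    simp only [dotProduct, mulVec]
    apply Finset.sum_congr rfl
    intro i _
    rw [Finset.mul_sum]
    apply Finset.sum_congr rfl
    intro j _
    ring
  rw [h1, hM, ← Matrix.mulVec_mulVec, Matrix.dotProduct_mulVec, Matrix.vecMul_conjTranspose]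
  simp only [dotProduct, star_trivial]
  apply Finset.sum_congr rfl
  intro i _
  rw [sq]

/-- If there are only finitely many integral points in every ball the map is injective. -/
lemma det_ne_zero_of_finite {M : Matrix ι ι ℝ}
    (hfin : ∀ R : ℝ, {c : ι → ℤ | ‖emb M (fun i => (c i : ℝ))‖ ≤ R}.Finite) : M.det ≠ 0 := by
  intro hdet
  obtain ⟨x, hx0, hx⟩ := Matrix.exists_mulVec_eq_zero_iff.2 hdet
  obtain ⟨i, hi⟩ := Function.ne_iff.1 hx0
  simp only [Pi.zero_apply] at hi
  have hxe : emb M x = 0 := by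
    simp [emb, hx]
  obtain ⟨K, hK⟩ := (isCompact_closedBall (0 : ι → ℝ) 1).exists_bound_of_continuousOn
    (emb_cont M).continuousOn
  set c : ℕ → ι → ℤ := fun k i => round ((k : ℝ) * x i) with hc
  have h1 : ∀ k, ‖emb M (fun i => (c k i : ℝ))‖ ≤ K := by
    intro k
    have h2 : emb M (fun i => (c k i : ℝ)) = emb M (fun i => (c k i : ℝ) - k * x i) := by
      have : (fun i => (c k i : ℝ) - k * x i) = (fun i => (c k i : ℝ)) - (k : ℝ) • x := by
        ext i; simp
      rw [this, map_sub, map_smul, hxe, smul_zero, sub_zero]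
    rw [h2]
    apply hK
    rw [mem_closedBall_zero_iff, pi_norm_le_iff_of_nonneg zero_le_one]
    intro i
    rw [Real.norm_eq_abs, abs_sub_comm]
    exact (abs_sub_round _).trans (by norm_num)
  have h3 := hfin K
  obtain ⟨D, hD⟩ : ∃ D : ℝ, ∀ c ∈ {c : ι → ℤ | ‖emb M (fun i => (c i : ℝ))‖ ≤ K},
      |(c i : ℝ)| ≤ D := by
    obtain ⟨D, hD⟩ := (h3.image (fun c : ι → ℤ => |(c i : ℝ)|)).bddAbove
    exact ⟨D, fun c hc => hD ⟨c, hc, rfl⟩⟩
  obtain ⟨k, hk⟩ := exists_nat_gt ((D + 1) / |x i|)
  have hxi : 0 < |x i| := abs_pos.2 hi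
  rw [div_lt_iff₀ hxi] at hk
  have h4 := hD (c k) (h1 k)
  have h5 : |(k : ℝ) * x i - (c k i : ℝ)| ≤ 1 / 2 := abs_sub_round _
  have h6 : |(k : ℝ) * x i| = k * |x i| := by rw [abs_mul, Nat.abs_cast]
  have h7 : |(k : ℝ) * x i| ≤ |(k : ℝ) * x i - (c k i : ℝ)| + |(c k i : ℝ)| := by
    have := abs_add_le ((k : ℝ) * x i - (c k i : ℝ)) (c k i : ℝ)
    simpa using this
  linarith

/-- The elements as combinations plus torsion. -/
noncomputable def splitEquiv {g : ι → A} (hg : IsBasisModTors g) (p : A → Prop)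
    (hp : ∀ P, p P ↔ p (∑ i, crd hg P i • g i)) :
    {P : A // p P} ≃ {c : ι → ℤ // p (∑ i, c i • g i)} × {t : A // IsOfFinAddOrder t} where
  toFun P := (⟨crd hg P.1, (hp P.1).1 P.2⟩, ⟨P.1 - ∑ i, crd hg P.1 i • g i, crd_spec hg P.1⟩)
  invFun x := ⟨∑ i, x.1.1 i • g i + x.2.1, by
    rw [hp]
    have : crd hg (∑ i, x.1.1 i • g i + x.2.1) = x.1.1 := crd_eq hg (by
      rw [add_sub_cancel_left]; exact x.2.2)
    rw [this]
    exact x.1.2⟩
  left_inv P := by
    apply Subtype.ext
    simp
  right_inv x := by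
    have h : crd hg (∑ i, x.1.1 i • g i + x.2.1) = x.1.1 := crd_eq hg (by
      rw [add_sub_cancel_left]; exact x.2.2)
    apply Prod.ext
    · apply Subtype.ext
      exact h
    · apply Subtype.ext
      simp only [h]
      abel

/-- **Counting.** -/
theorem count_group (h q : A → ℝ) (C : ℝ)
    (hq0 : ∀ P, 0 ≤ q P) (hq : ∀ P Q, q (P + Q) + q (P - Q) = 2 * (q P + q Q))
    (hqh : ∀ P, |q P - h P| ≤ C) (hfin : ∀ B : ℝ, {P | h P ≤ B}.Finite)
    (g : ι → A) (hg : IsBasisModTors g) :
    0 < (gram q g).det ∧ 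
    Tendsto (fun B : ℝ => (Nat.card {P : A // h P ≤ B} : ℝ) / B ^ ((Fintype.card ι : ℝ) / 2))
      atTop (𝓝 (Nat.card {t : A // IsOfFinAddOrder t} * ballVol (Fintype.card ι) /
        √ (gram q g).det)) := by
  have hC0 : 0 ≤ C := (abs_nonneg _).trans (hqh 0)
  have hps : (gram q g).PosSemidef := by
    apply posSemidef_of_int' _ (gram_symm q g)
    intro c
    have := q_comb q hq g 0 IsOfFinAddOrder.zero c
    rw [add_zero] at this
    rw [← this]
    exact hq0 _
  obtain ⟨M, hM⟩ := exists_sqrt hps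
  have hqM : ∀ c : ι → ℤ, q (∑ i, c i • g i) = ‖emb M (fun i => (c i : ℝ))‖ ^ 2 := by
    intro c
    have := q_comb q hq g 0 IsOfFinAddOrder.zero c
    rw [add_zero] at this
    rw [this, emb_gram hM]
  have hqt : ∀ P, q P = q (∑ i, crd hg P i • g i) := by
    intro P
    have h1 := q_comb q hq g _ (crd_spec hg P) (crd hg P)
    have h2 := q_comb q hq g 0 IsOfFinAddOrder.zero (crd hg P)
    rw [add_zero] at h2
    rw [add_sub_cancel] at h1
    rw [h1, h2]
  have hqfin : ∀ B : ℝ, {P | q P ≤ B}.Finite := by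
    intro B
    refine (hfin (B + C)).subset ?_
    intro P hP
    simp only [Set.mem_ofPred_eq] at hP ⊢
    have := abs_le.1 (hqh P)
    linarith
  have hginj : Function.Injective (fun c : ι → ℤ => ∑ i, c i • g i) := by
    intro c d hcd
    have h1 : crd hg (∑ i, c i • g i) = c := crd_eq hg (by
      rw [sub_self]; exact IsOfFinAddOrder.zero)
    have h2 : crd hg (∑ i, d i • g i) = d := crd_eq hg (by
      rw [sub_self]; exact IsOfFinAddOrder.zero)
    simp only at hcd
    rw [← h1, ← h2, hcd]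
  have hMfin : ∀ R : ℝ, {c : ι → ℤ | ‖emb M (fun i => (c i : ℝ))‖ ≤ R}.Finite := by
    intro R
    have h1 := (hqfin (R ^ 2)).preimage (f := fun c : ι → ℤ => ∑ i, c i • g i) hginj.injOn
    refine h1.subset ?_
    intro c hc
    simp only [Set.mem_ofPred_eq, Set.mem_preimage] at hc ⊢
    rw [hqM]
    have := norm_nonneg (emb M (fun i => (c i : ℝ)))
    nlinarith
  have hdet := det_ne_zero_of_finite hMfin
  have hdetG : (gram q g).det = M.det ^ 2 := by
    rw [hM, Matrix.det_mul, Matrix.det_conjTranspose]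
    simp [sq]
  have hpos : 0 < (gram q g).det := by
    rw [hdetG]; positivity
  refine ⟨hpos, ?_⟩
  have hsq : √ (gram q g).det = |M.det| := by rw [hdetG, Real.sqrt_sq_eq_abs]
  rw [hsq]
  have htfin : Finite {t : A // IsOfFinAddOrder t} := by
    have : {t : A | IsOfFinAddOrder t} ⊆ {P | q P ≤ 0} := by
      intro t ht
      have h1 := q_comb q hq g t ht 0
      simp at h1
      exact h1.le
    exact ((hqfin 0).subset this).to_subtype
  -- the count with q
  obtain ⟨T, hT⟩ : ∃ T : ℝ, T = ((Nat.card {t : A // IsOfFinAddOrder t} : ℕ) : ℝ) := ⟨_, rfl⟩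
  rw [← hT]
  set n : ℕ := Fintype.card ι with hn
  have hcq : ∀ R : ℝ, 0 ≤ R → (Nat.card {P : A // q P ≤ R ^ 2} : ℝ) =
      Nat.card {c : ι → ℤ // ‖emb M (fun i => (c i : ℝ))‖ ≤ R} * T := by
    intro R hR
    rw [Nat.card_congr (splitEquiv hg (fun P => q P ≤ R ^ 2) (fun P => by rw [hqt P])),
      Nat.card_prod, Nat.cast_mul, hT]
    congr 2
    apply Nat.card_congr
    apply Equiv.subtypeEquivRight
    intro c
    rw [hqM]
    exact ⟨fun h => by
      have := abs_le_of_sq_le_sq' h hR
      exact this.2, fun h => by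
      have := norm_nonneg (emb M (fun i => (c i : ℝ)))
      nlinarith⟩
  have hlim : Tendsto (fun R : ℝ => (Nat.card {P : A // q P ≤ R ^ 2} : ℝ) / R ^ n) atTop
      (𝓝 (T * ballVol n / |M.det|)) := by
    have h1 := (count_ell hdet).const_mul T
    rw [← mul_div_assoc] at h1
    refine h1.congr' ?_
    filter_upwards [eventually_ge_atTop 0] with R hR
    rw [hcq R hR]
    ring
  -- the count with B
  have hlimB : Tendsto (fun B : ℝ => (Nat.card {P : A // q P ≤ B} : ℝ) / B ^ ((n : ℝ) / 2)) atTop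
      (𝓝 (T * ballVol n / |M.det|)) := by
    have h1 := hlim.comp Real.tendsto_sqrt_atTop
    refine h1.congr' ?_
    filter_upwards [eventually_ge_atTop 0] with B hB
    simp only [Function.comp_apply]
    rw [Real.sq_sqrt hB]
    congr 1
    rw [← Real.rpow_natCast, Real.sqrt_eq_rpow, ← Real.rpow_mul hB]
    congr 1
    ring
  have hshift : ∀ D : ℝ, Tendsto (fun B : ℝ => (Nat.card {P : A // q P ≤ B + D} : ℝ) /
      B ^ ((n : ℝ) / 2)) atTop (𝓝 (T * ballVol n / |M.det|)) := by
    intro D
    have h1 := hlimB.comp (tendsto_atTop_add_const_right atTop D tendsto_id)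
    have h2 : Tendsto (fun B : ℝ => ((B + D) / B) ^ ((n : ℝ) / 2)) atTop (𝓝 1) := by
      have h3 : Tendsto (fun B : ℝ => (B + D) / B) atTop (𝓝 1) := by
        have h4 : Tendsto (fun B : ℝ => 1 + D / B) atTop (𝓝 (1 + 0)) :=
          tendsto_const_nhds.add (tendsto_const_nhds.div_atTop tendsto_id)
        rw [add_zero] at h4
        refine h4.congr' ?_
        filter_upwards [eventually_gt_atTop 0] with B hB
        field_simp
      have h5 := h3.rpow_const (p := (n : ℝ) / 2) (Or.inl one_ne_zero)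
      rwa [Real.one_rpow] at h5
    have h6 := h1.mul h2
    rw [mul_one] at h6
    refine h6.congr' ?_
    filter_upwards [eventually_gt_atTop 0, eventually_gt_atTop (-D)] with B hB hB2
    simp only [Function.comp_apply, id]
    have hBD : 0 < B + D := by linarith
    rw [Real.div_rpow hBD.le hB.le]
    have := Real.rpow_pos_of_pos hBD ((n : ℝ) / 2)
    have := Real.rpow_pos_of_pos hB ((n : ℝ) / 2)
    field_simp
  refine tendsto_of_tendsto_of_tendsto_of_le_of_le' (hshift (-C)) (hshift C) ?_ ?_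
  · filter_upwards [eventually_gt_atTop 0] with B hB
    apply div_le_div_of_nonneg_right _ (Real.rpow_nonneg hB.le _)
    have : Finite {P : A // h P ≤ B} := (hfin B).to_subtype
    exact_mod_cast Nat.card_le_card_of_injective
      (fun P : {P : A // q P ≤ B + -C} => (⟨P.1, by
        have h1 := abs_le.1 (hqh P.1)
        have h2 := P.2
        linarith⟩ : {P : A // h P ≤ B})) (fun P Q h => Subtype.ext (by simpa only [Subtype.mk.injEq] using h))
  · filter_upwards [eventually_gt_atTop 0] with B hB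
    apply div_le_div_of_nonneg_right _ (Real.rpow_nonneg hB.le _)
    have : Finite {P : A // q P ≤ B + C} := (hqfin (B + C)).to_subtype
    exact_mod_cast Nat.card_le_card_of_injective
      (fun P : {P : A // h P ≤ B} => (⟨P.1, by
        have h1 := abs_le.1 (hqh P.1)
        have h2 := P.2
        linarith⟩ : {P : A // q P ≤ B + C})) (fun P Q h => Subtype.ext (by simpa only [Subtype.mk.injEq] using h))

end quad

end Pool.Agent.TH942
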