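import Mathlib
import Pool.Agent.TH942.FG
import Pool.Agent.TH942.Grp

/-!
# Rational points of bounded height on `y² = x³ + a x + b` (Néron)
-/

set_option autoImplicit false
set_option linter.unusedSectionVars false

open MeasureTheory Filter Topology Height WeierstrassCurve

namespace Pool.Agent.TH942

/-- the canonical quadratic function is the limit of `h (2^k P) / 4^k`. -/
theorem canon_lim {A : Type} [AddCommGroup A] {h q : A → ℝ} {C : ℝ}
    (hqh : ∀ P, |q P - h P| ≤ C) (hq : ∀ P Q, q (P + Q) + q (P - Q) = 2 * (q P + q Q)) (P : A) :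
    Tendsto (fun k : ℕ => h ((2 ^ k : ℕ) • P) / 4 ^ k) atTop (𝓝 (q P)) := by
  have q0 := q_zero q hq
  have h1 : ∀ k : ℕ, q ((2 ^ k : ℕ) • P) = 4 ^ k * q P := by
    intro k
    induction k with
    | zero => simp
    | succ k ih =>
      have h2 := hq ((2 ^ k : ℕ) • P) ((2 ^ k : ℕ) • P)
      rw [sub_self, q0] at h2
      rw [pow_succ, mul_comm (2 ^ k) 2, mul_smul, two_smul, pow_succ]
      linarith
  rw [tendsto_iff_norm_sub_tendsto_zero]
  have h3 : Tendsto (fun k : ℕ => C * (1 / 4 : ℝ) ^ k) atTop (𝓝 (C * 0)) :=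
    (tendsto_pow_atTop_nhds_zero_of_lt_one (by norm_num) (by norm_num)).const_mul C
  rw [mul_zero] at h3
  refine squeeze_zero (fun k => norm_nonneg _) (fun k => ?_) h3
  have h4 := hqh ((2 ^ k : ℕ) • P)
  rw [h1] at h4
  rw [Real.norm_eq_abs]
  have h5 : h ((2 ^ k : ℕ) • P) / 4 ^ k - q P = -((4 ^ k * q P - h ((2 ^ k : ℕ) • P)) / 4 ^ k) := by
    field_simp
    ring
  rw [h5, abs_neg, abs_div, abs_of_pos (by positivity : (0 : ℝ) < 4 ^ k), _root_.one_div_pow,
    mul_one_div]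
  exact div_le_div_of_nonneg_right h4 (by positivity)

section field

variable {K : Type} [Field K] [NumberField K] [DecidableEq K]

/-- The theorem of Mordell, Weil and Néron. -/
theorem neron {a b : K} (hD : 4 * a ^ 3 + 27 * b ^ 2 ≠ 0) :
    ∃ (q : SPt a b → ℝ) (C : ℝ), (∀ P, 0 ≤ q P) ∧
      (∀ P Q, q (P + Q) + q (P - Q) = 2 * (q P + q Q)) ∧ (∀ P, |q P - sht P| ≤ C) ∧
      (∀ P, Tendsto (fun k : ℕ => sht ((2 ^ k : ℕ) • P) / 4 ^ k) atTop (𝓝 (q P))) ∧
      ∀ (ι : Type) [Fintype ι] [DecidableEq ι] (g : ι → SPt a b), IsBasisModTors g →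
        0 < (gram q g).det ∧
        Tendsto (fun B : ℝ => (Nat.card {P : SPt a b // sht P ≤ B} : ℝ) /
          B ^ ((Fintype.card ι : ℝ) / 2)) atTop (𝓝 (Nat.card {t : SPt a b // IsOfFinAddOrder t} *
            ballVol (Fintype.card ι) / √ (gram q g).det)) := by
  obtain ⟨C, hC0, hC⟩ := spar_law hD
  obtain ⟨q, C', hq1, hq2, hq3⟩ := H437R2.Man.MW.canon (fun P : SPt a b => sht P) C
    (fun P => sht_nonneg P) hC
  refine ⟨q, C', hq2, hq3, hq1, canon_lim hq1 hq3, ?_⟩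
  intro ι _ _ g hg
  exact count_group (fun P : SPt a b => sht P) q C' hq2 hq3 hq1 (fun B => sfinite_ht B) g hg

/-- Growth of the number of points. -/
theorem neron_growth {a b : K} (hD : 4 * a ^ 3 + 27 * b ^ 2 ≠ 0) :
    ∃ κ : ℝ, 0 < κ ∧ Tendsto (fun B : ℝ => (Nat.card {P : SPt a b // sht P ≤ B} : ℝ) /
      B ^ ((Module.finrank ℤ (SPt a b) : ℝ) / 2)) atTop (𝓝 κ) := by
  obtain ⟨q, C, h1, h2, h3, h4, h5⟩ := neron hD
  obtain ⟨r, g, hg⟩ := exists_basis (sfg hD)
  obtain ⟨h6, h7⟩ := h5 (Fin r) g hg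
  rw [card_basis hg]
  refine ⟨_, ?_, h7⟩
  have h8 : Finite {t : SPt a b // IsOfFinAddOrder t} := by
    have : {t : SPt a b | IsOfFinAddOrder t} ⊆ {P | sht P ≤ C} := by
      intro t ht
      have h9 := q_comb q h2 g t ht 0
      simp only [Pi.zero_apply, zero_smul, Finset.sum_const_zero, zero_add, Int.cast_zero,
        zero_mul] at h9
      have h10 := abs_le.1 (h3 t)
      simp only [Set.mem_ofPred_eq]
      linarith
    exact ((sfinite_ht C).subset this).to_subtype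
  have h9 : 0 < Nat.card {t : SPt a b // IsOfFinAddOrder t} := by
    have : Nonempty {t : SPt a b // IsOfFinAddOrder t} := ⟨⟨0, IsOfFinAddOrder.zero⟩⟩
    exact Nat.card_pos
  have h10 := ballVol_pos (Fintype.card (Fin r))
  have h11 : (0 : ℝ) < Nat.card {t : SPt a b // IsOfFinAddOrder t} := by exact_mod_cast h9
  positivity

end field

section rat

/-- The number of rational points of `y² = x³ + a x + b` (the point at infinity included) with
`max (|m|, n) ≤ X`, `x = m / n` in lowest terms. -/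
noncomputable def ratCount (a b : ℤ) (X : ℝ) : ℕ :=
  Nat.card {P : ℚ × ℚ // P.2 ^ 2 = P.1 ^ 3 + a * P.1 + b ∧
    (max P.1.num.natAbs P.1.den : ℝ) ≤ X} + 1

lemma sht_some {a b : ℤ} {x y : ℚ} (h : (sw (a : ℚ) (b : ℚ)).toAffine.Nonsingular x y) :
    sht (Affine.Point.some x y h : SPt (a : ℚ) (b : ℚ)) =
      Real.log ((max x.num.natAbs x.den : ℕ) : ℝ) := by
  rw [sht, Affine.Point.xRep_some, ← logHeight₁_eq_logHeight]
  exact Rat.logHeight₁_eq_log_max x

/-- The points. -/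
noncomputable def ratEquiv {a b : ℤ} (hD : 4 * (a : ℚ) ^ 3 + 27 * (b : ℚ) ^ 2 ≠ 0) {X : ℝ}
    (hX : 1 ≤ X) :
    {P : SPt (a : ℚ) (b : ℚ) // sht P ≤ Real.log X} ≃
      Option {P : ℚ × ℚ // P.2 ^ 2 = P.1 ^ 3 + a * P.1 + b ∧
        (max P.1.num.natAbs P.1.den : ℝ) ≤ X} := by
  have hX0 : 0 < X := by linarith
  have key : ∀ x : ℚ, (Real.log ((max x.num.natAbs x.den : ℕ) : ℝ) ≤ Real.log X ↔
      (max x.num.natAbs x.den : ℝ) ≤ X) := by
    intro x
    have h1 : 0 < (max x.num.natAbs x.den : ℕ) := lt_max_of_lt_right x.den_pos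
    have h2 : (0 : ℝ) < ((max x.num.natAbs x.den : ℕ) : ℝ) := by exact_mod_cast h1
    rw [Real.log_le_log_iff h2 hX0]
    push_cast
    rfl
  refine Equiv.ofBijective (fun P => match P with
    | ⟨.zero, _⟩ => none
    | ⟨.some x y h, hP⟩ => some ⟨(x, y), sw_eqn.1 h.1, (key x).1 (by rwa [sht_some h] at hP)⟩) ?_
  constructor
  · rintro ⟨P, hP⟩ ⟨Q, hQ⟩ hPQ
    cases P with
    | zero =>
      cases Q with
      | zero => rfl
      | some x y h => simp at hPQ
    | some x y h =>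
      cases Q with
      | zero => simp at hPQ
      | some x' y' h' =>
        simp only [Option.some.injEq, Subtype.mk.injEq, Prod.mk.injEq] at hPQ
        obtain ⟨rfl, rfl⟩ := hPQ
        rfl
  · intro z
    cases z with
    | none => exact ⟨⟨.zero, by
        have : sht (Affine.Point.zero : SPt (a : ℚ) (b : ℚ)) = 0 := sht_zero
        rw [this]
        exact Real.log_nonneg hX⟩, rfl⟩
    | some z =>
      obtain ⟨⟨x, y⟩, h1, h2⟩ := z
      exact ⟨⟨.some x y (sw_nonsing hD h1), by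
        rw [sht_some]
        exact (key x).2 h2⟩, rfl⟩

lemma ratCount_eq {a b : ℤ} (hD : 4 * (a : ℚ) ^ 3 + 27 * (b : ℚ) ^ 2 ≠ 0) {X : ℝ} (hX : 1 ≤ X) :
    ratCount a b X = Nat.card {P : SPt (a : ℚ) (b : ℚ) // sht P ≤ Real.log X} := by
  have hfin : Finite {P : SPt (a : ℚ) (b : ℚ) // sht P ≤ Real.log X} :=
    (sfinite_ht (Real.log X)).to_subtype
  have h1 := Nat.card_congr (ratEquiv hD hX)
  have h2 : Finite (Option {P : ℚ × ℚ // P.2 ^ 2 = P.1 ^ 3 + a * P.1 + b ∧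
        (max P.1.num.natAbs P.1.den : ℝ) ≤ X}) := Finite.of_equiv _ (ratEquiv hD hX)
  have h3 : Finite {P : ℚ × ℚ // P.2 ^ 2 = P.1 ^ 3 + a * P.1 + b ∧
        (max P.1.num.natAbs P.1.den : ℝ) ≤ X} :=
    Finite.of_injective _ (Option.some_injective _)
  rw [h1, Finite.card_option]
  rfl

/-- Growth of the number of rational points. -/
theorem ratCount_growth {a b : ℤ} (hab : 4 * a ^ 3 + 27 * b ^ 2 ≠ 0) :
    ∃ κ : ℝ, 0 < κ ∧ Tendsto (fun X : ℝ => (ratCount a b X : ℝ) /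
      (Real.log X) ^ ((Module.finrank ℤ (SPt (a : ℚ) (b : ℚ)) : ℝ) / 2)) atTop (𝓝 κ) := by
  have hD : 4 * (a : ℚ) ^ 3 + 27 * (b : ℚ) ^ 2 ≠ 0 := by exact_mod_cast hab
  obtain ⟨κ, hκ, h1⟩ := neron_growth hD
  refine ⟨κ, hκ, (h1.comp Real.tendsto_log_atTop).congr' ?_⟩
  filter_upwards [eventually_ge_atTop 1] with X hX
  simp only [Function.comp_apply]
  rw [ratCount_eq hD hX]

end rat

end Pool.Agent.TH942
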