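import Mathlib

/-!
# The Dirichlet series of a height from the counting function
-/

set_option autoImplicit false
set_option linter.unusedSectionVars false

open MeasureTheory Filter Topology Set

namespace Pool.Agent.TH942

variable {I : Type} [Countable I] {h : I → ℝ}

/-- the counting function -/
noncomputable def cnt (h : I → ℝ) (B : ℝ) : ℝ := Nat.card {i : I // h i ≤ B}

lemma cnt_nonneg (B : ℝ) : 0 ≤ cnt h B := Nat.cast_nonneg _

lemma cnt_mono (hfin : ∀ B : ℝ, {i | h i ≤ B}.Finite) : Monotone (cnt h) := by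
  intro B B' hBB
  have : Finite {i : I // h i ≤ B'} := (hfin B').to_subtype
  unfold cnt
  exact_mod_cast Nat.card_le_card_of_injective
    (fun P : {i : I // h i ≤ B} => (⟨P.1, P.2.trans hBB⟩ : {i : I // h i ≤ B'}))
    (fun P Q h => Subtype.ext (by simpa only [Subtype.mk.injEq] using h))

lemma term_lintegral {s : ℝ} (hs : 0 < s) {x : ℝ} (hx : 0 ≤ x) :
    ∫⁻ B in Ioi (0 : ℝ), (if x ≤ B then ENNReal.ofReal (s * Real.exp (-(s * B))) else 0) =
      ENNReal.ofReal (Real.exp (-(s * x))) := by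
  have h1 : (fun B : ℝ => (if x ≤ B then ENNReal.ofReal (s * Real.exp (-(s * B))) else 0))
      =ᵐ[volume.restrict (Ioi 0)]
      (Ioi x).indicator (fun B => ENNReal.ofReal (s * Real.exp (-(s * B)))) := by
    have h2 : ∀ᵐ B ∂(volume.restrict (Ioi (0 : ℝ))), B ≠ x :=
      ae_restrict_of_ae (Measure.ae_ne volume x)
    filter_upwards [h2] with B hB
    by_cases hxB : x < B
    · rw [if_pos hxB.le, indicator_of_mem (show B ∈ Ioi x from hxB)]
    · rw [if_neg (fun h => hxB (lt_of_le_of_ne h hB.symm)),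
        indicator_of_notMem (show B ∉ Ioi x from hxB)]
  rw [lintegral_congr_ae h1, lintegral_indicator measurableSet_Ioi,
    Measure.restrict_restrict measurableSet_Ioi,
    inter_eq_left.2 (Ioi_subset_Ioi hx)]
  have h6 := integral_exp_mul_Ioi (a := -s) (by linarith) x
  have h7 : Integrable (fun B : ℝ => s * Real.exp (-(s * B))) (volume.restrict (Ioi x)) := by
    have := (integrableOn_exp_mul_Ioi (a := -s) (by linarith) x).const_mul s
    refine this.congr (Eventually.of_forall fun B => ?_)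
    simp only [neg_mul]
  rw [← ofReal_integral_eq_lintegral_ofReal h7 (Eventually.of_forall fun B => by positivity),
    integral_const_mul]
  congr 1
  have h8 : (fun B : ℝ => Real.exp (-(s * B))) = fun B => Real.exp (-s * B) := by
    ext B; rw [neg_mul]
  rw [h8, h6]
  field_simp

lemma zeta_lintegral (h0 : ∀ i, 0 ≤ h i) (hfin : ∀ B : ℝ, {i | h i ≤ B}.Finite) {s : ℝ}
    (hs : 0 < s) :
    ∑' i, ENNReal.ofReal (Real.exp (-(s * h i))) =
      ∫⁻ B in Ioi (0 : ℝ), ENNReal.ofReal (s * Real.exp (-(s * B)) * cnt h B) := by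
  have h1 : ∀ i, ENNReal.ofReal (Real.exp (-(s * h i))) = ∫⁻ B in Ioi (0 : ℝ),
      (if h i ≤ B then ENNReal.ofReal (s * Real.exp (-(s * B))) else 0) := fun i =>
    (term_lintegral hs (h0 i)).symm
  simp only [h1]
  rw [← lintegral_tsum]
  · apply lintegral_congr
    intro B
    have h2 := hfin B
    rw [tsum_eq_sum (s := h2.toFinset) (fun i hi => by
      rw [if_neg]
      intro h3
      exact hi (h2.mem_toFinset.2 h3))]
    rw [Finset.sum_congr rfl (g := fun _ => ENNReal.ofReal (s * Real.exp (-(s * B)))) (fun i hi => by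
      exact if_pos (h2.mem_toFinset.1 hi))]
    have h3 : 0 ≤ s * Real.exp (-(s * B)) := by positivity
    rw [Finset.sum_const, nsmul_eq_mul, mul_comm, ENNReal.ofReal_mul h3]
    congr 1
    unfold cnt
    rw [ENNReal.ofReal_natCast]
    congr 1
    rw [← Nat.card_eq_card_finite_toFinset h2]
    rfl
  · intro i
    apply Measurable.aemeasurable
    apply Measurable.ite
    · exact measurableSet_le measurable_const measurable_id
    · fun_prop
    · exact measurable_const

/-- a bound for the counting function -/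
lemma cnt_bound (hfin : ∀ B : ℝ, {i | h i ≤ B}.Finite) {ρ κ : ℝ} (hρ : 0 ≤ ρ)
    (hlim : Tendsto (fun B : ℝ => cnt h B / B ^ ρ) atTop (𝓝 κ)) :
    ∃ C : ℝ, 0 ≤ C ∧ ∀ B : ℝ, 0 ≤ B → cnt h B ≤ C * (1 + B) ^ ρ := by
  have h1 : ∀ᶠ B : ℝ in atTop, cnt h B / B ^ ρ < |κ| + 1 :=
    hlim.eventually_lt_const (by have := le_abs_self κ; linarith)
  obtain ⟨B₀, hB₀⟩ := eventually_atTop.1 (h1.and (eventually_ge_atTop 1))
  have hB1 : 1 ≤ B₀ := (hB₀ B₀ le_rfl).2
  refine ⟨max (|κ| + 1) (cnt h B₀), by positivity, fun B hB => ?_⟩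
  rcases le_total B₀ B with h2 | h2
  · have h3 := (hB₀ B h2).1
    have h4 : 0 < B := by linarith
    rw [div_lt_iff₀ (Real.rpow_pos_of_pos h4 _)] at h3
    have h5 : B ^ ρ ≤ (1 + B) ^ ρ := Real.rpow_le_rpow hB (by linarith) hρ
    calc cnt h B ≤ (|κ| + 1) * B ^ ρ := h3.le
      _ ≤ max (|κ| + 1) (cnt h B₀) * (1 + B) ^ ρ := by
        gcongr
        exact le_max_left _ _
  · have h3 := cnt_mono hfin h2
    have h4 : 1 ≤ (1 + B) ^ ρ := Real.one_le_rpow (by linarith) hρ
    have h5 : 0 ≤ max (|κ| + 1) (cnt h B₀) := by positivity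
    calc cnt h B ≤ max (|κ| + 1) (cnt h B₀) * 1 := by
          rw [mul_one]; exact h3.trans (le_max_right _ _)
      _ ≤ _ := by gcongr

lemma rpow_exp_integrable {ρ : ℝ} (hρ : 0 ≤ ρ) :
    IntegrableOn (fun u : ℝ => Real.exp (-u) * (1 + u) ^ ρ) (Ioi 0) := by
  have h1 : IntegrableOn (fun u : ℝ => Real.exp (-u) * u ^ ((ρ + 1) - 1)) (Ioi 0) :=
    Real.GammaIntegral_convergent (by linarith)
  have h2 : IntegrableOn (fun u : ℝ => Real.exp (-u) * u ^ ((1 : ℝ) - 1)) (Ioi 0) :=
    Real.GammaIntegral_convergent one_pos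
  have h3 : IntegrableOn (fun u : ℝ => 2 ^ ρ * (Real.exp (-u) * u ^ ((1 : ℝ) - 1) +
      Real.exp (-u) * u ^ ((ρ + 1) - 1))) (Ioi 0) := (h2.add h1).const_mul _
  refine h3.mono' ?_ ?_
  · apply ContinuousOn.aestronglyMeasurable _ measurableSet_Ioi
    apply ContinuousOn.mul (by fun_prop)
    apply ContinuousOn.rpow_const (by fun_prop)
    intro u hu
    left
    have : (0 : ℝ) < u := hu
    linarith
  · filter_upwards [ae_restrict_mem measurableSet_Ioi] with u hu
    have hu0 : (0 : ℝ) < u := hu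
    rw [Real.norm_eq_abs, abs_of_nonneg (by positivity), sub_self, Real.rpow_zero, mul_one,
      add_sub_cancel_right]
    have h4 : (1 + u) ^ ρ ≤ 2 ^ ρ * (1 + u ^ ρ) := by
      rcases le_total u 1 with h5 | h5
      · calc (1 + u) ^ ρ ≤ 2 ^ ρ := Real.rpow_le_rpow (by linarith) (by linarith) hρ
          _ ≤ 2 ^ ρ * (1 + u ^ ρ) := by
            have : 0 ≤ u ^ ρ := Real.rpow_nonneg hu0.le _
            have : (0 : ℝ) < 2 ^ ρ := by positivity
            nlinarith
      · calc (1 + u) ^ ρ ≤ (2 * u) ^ ρ := Real.rpow_le_rpow (by linarith) (by linarith) hρ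
          _ = 2 ^ ρ * u ^ ρ := Real.mul_rpow (by norm_num) hu0.le
          _ ≤ _ := by gcongr; linarith
    calc Real.exp (-u) * (1 + u) ^ ρ ≤ Real.exp (-u) * (2 ^ ρ * (1 + u ^ ρ)) := by gcongr
      _ = _ := by ring

/-- **The Dirichlet series.** -/
theorem zeta_main (h0 : ∀ i, 0 ≤ h i) (hfin : ∀ B : ℝ, {i | h i ≤ B}.Finite) {ρ κ : ℝ}
    (hρ : 0 ≤ ρ) (hlim : Tendsto (fun B : ℝ => cnt h B / B ^ ρ) atTop (𝓝 κ)) :
    (∀ s : ℝ, 0 < s → Summable fun i => Real.exp (-(s * h i))) ∧
    Tendsto (fun s : ℝ => s ^ ρ * ∑' i, Real.exp (-(s * h i))) (𝓝[>] 0)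
      (𝓝 (κ * Real.Gamma (ρ + 1))) := by
  obtain ⟨C, hC0, hC⟩ := cnt_bound hfin hρ hlim
  have hmono := cnt_mono hfin
  have hmeas : Measurable (cnt h) := hmono.measurable
  -- integrability
  have hint : ∀ s : ℝ, 0 < s →
      IntegrableOn (fun B : ℝ => s * Real.exp (-(s * B)) * cnt h B) (Ioi 0) := by
    intro s hs
    have h1 : IntegrableOn (fun B : ℝ => Real.exp (-(s * B)) * (1 + s * B) ^ ρ) (Ioi 0) := by
      have h2 := (integrableOn_Ioi_comp_mul_left_iff
        (fun u : ℝ => Real.exp (-u) * (1 + u) ^ ρ) 0 hs).2 (by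
          rw [mul_zero]; exact rpow_exp_integrable hρ)
      exact h2
    have h3 : IntegrableOn (fun B : ℝ => s * C * (max 1 s⁻¹) ^ ρ *
        (Real.exp (-(s * B)) * (1 + s * B) ^ ρ)) (Ioi 0) := h1.const_mul _
    refine h3.mono' ?_ ?_
    · exact ((measurable_const.mul (by fun_prop)).mul hmeas).aestronglyMeasurable
    · filter_upwards [ae_restrict_mem measurableSet_Ioi] with B hB
      have hB0 : (0 : ℝ) < B := hB
      have h4 := cnt_nonneg (h := h) B
      rw [Real.norm_eq_abs, abs_of_nonneg (by positivity)]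
      have h5 : (1 + B) ^ ρ ≤ (max 1 s⁻¹) ^ ρ * (1 + s * B) ^ ρ := by
        rw [← Real.mul_rpow (by positivity) (by positivity)]
        apply Real.rpow_le_rpow (by linarith) _ hρ
        have h6 : 1 ≤ max 1 s⁻¹ := le_max_left _ _
        have h7 : s⁻¹ ≤ max 1 s⁻¹ := le_max_right _ _
        have h8 : B = s⁻¹ * (s * B) := by field_simp
        have h9 : 0 < s * B := by positivity
        calc 1 + B = 1 * 1 + s⁻¹ * (s * B) := by rw [← h8]; ring
          _ ≤ max 1 s⁻¹ * 1 + max 1 s⁻¹ * (s * B) := by gcongr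
          _ = _ := by ring
      calc s * Real.exp (-(s * B)) * cnt h B ≤ s * Real.exp (-(s * B)) * (C * (1 + B) ^ ρ) := by
            gcongr
            exact hC B hB0.le
        _ ≤ s * Real.exp (-(s * B)) * (C * ((max 1 s⁻¹) ^ ρ * (1 + s * B) ^ ρ)) := by gcongr
        _ = _ := by ring
  have hzeta : ∀ s : ℝ, 0 < s → (Summable fun i => Real.exp (-(s * h i))) ∧
      ∑' i, Real.exp (-(s * h i)) = ∫ B in Ioi (0 : ℝ), s * Real.exp (-(s * B)) * cnt h B := by
    intro s hs
    have h1 := zeta_lintegral h0 hfin hs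
    have h2 : ∀ᵐ B ∂(volume.restrict (Ioi (0 : ℝ))), 0 ≤ s * Real.exp (-(s * B)) * cnt h B :=
      Eventually.of_forall fun B => by
        have h4 := cnt_nonneg (h := h) B
        positivity
    rw [← ofReal_integral_eq_lintegral_ofReal (hint s hs) h2] at h1
    have h3 : ∑' i, ENNReal.ofReal (Real.exp (-(s * h i))) ≠ ⊤ := by
      rw [h1]; exact ENNReal.ofReal_ne_top
    have h4 : Summable fun i => Real.exp (-(s * h i)) := by
      have h5 := ENNReal.summable_toReal h3
      refine h5.congr fun i => ?_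
      rw [ENNReal.toReal_ofReal (Real.exp_nonneg _)]
    refine ⟨h4, ?_⟩
    rw [← ENNReal.ofReal_tsum_of_nonneg (fun i => Real.exp_nonneg _) h4] at h1
    have h5 : 0 ≤ ∫ B in Ioi (0 : ℝ), s * Real.exp (-(s * B)) * cnt h B :=
      integral_nonneg_of_ae h2
    exact (ENNReal.ofReal_eq_ofReal_iff (tsum_nonneg fun i => Real.exp_nonneg _) h5).1 h1
  refine ⟨fun s hs => (hzeta s hs).1, ?_⟩
  -- substitution
  have hsub : ∀ s : ℝ, 0 < s → s ^ ρ * ∑' i, Real.exp (-(s * h i)) =
      ∫ u in Ioi (0 : ℝ), s ^ ρ * (Real.exp (-u) * cnt h (u / s)) := by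
    intro s hs
    rw [(hzeta s hs).2, ← integral_const_mul]
    have h1 := integral_comp_mul_left_Ioi (fun u : ℝ => s ^ ρ * (Real.exp (-u) * cnt h (u / s)))
      0 hs
    rw [mul_zero] at h1
    have h2 : (∫ B in Ioi (0 : ℝ), s ^ ρ * (s * Real.exp (-(s * B)) * cnt h B)) =
        s • ∫ B in Ioi (0 : ℝ), s ^ ρ * (Real.exp (-(s * B)) * cnt h (s * B / s)) := by
      rw [← integral_smul]
      apply integral_congr_ae
      refine Eventually.of_forall fun B => ?_
      simp only [smul_eq_mul]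
      rw [mul_div_cancel_left₀ _ hs.ne']
      ring
    rw [h2, h1, smul_smul, mul_inv_cancel₀ hs.ne', one_smul]
  have hlimit : κ * Real.Gamma (ρ + 1) = ∫ u in Ioi (0 : ℝ), Real.exp (-u) * (κ * u ^ ρ) := by
    rw [Real.Gamma_eq_integral (by linarith), ← integral_const_mul]
    apply integral_congr_ae
    refine Eventually.of_forall fun u => ?_
    simp only [add_sub_cancel_right]
    ring
  rw [hlimit]
  have hdct : Tendsto (fun s : ℝ => ∫ u in Ioi (0 : ℝ), s ^ ρ * (Real.exp (-u) * cnt h (u / s)))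
      (𝓝[>] 0) (𝓝 (∫ u in Ioi (0 : ℝ), Real.exp (-u) * (κ * u ^ ρ))) := by
    refine tendsto_integral_filter_of_dominated_convergence
      (fun u => C * (Real.exp (-u) * (1 + u) ^ ρ)) ?_ ?_
      ((rpow_exp_integrable hρ).const_mul C) ?_
    · filter_upwards [self_mem_nhdsWithin] with s hs
      exact (measurable_const.mul ((by fun_prop : Measurable fun u : ℝ => Real.exp (-u)).mul
        (hmeas.comp (measurable_id.div_const s)))).aestronglyMeasurable
    · filter_upwards [self_mem_nhdsWithin, mem_nhdsWithin_of_mem_nhds (Iio_mem_nhds one_pos)]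
        with s hs hs1
      have hs0 : (0 : ℝ) < s := hs
      have hs1' : s < 1 := hs1
      filter_upwards [ae_restrict_mem measurableSet_Ioi] with u hu
      have hu0 : (0 : ℝ) < u := hu
      have h4 := cnt_nonneg (h := h) (u / s)
      rw [Real.norm_eq_abs, abs_of_nonneg (by positivity)]
      have h5 : s ^ ρ * (1 + u / s) ^ ρ ≤ (1 + u) ^ ρ := by
        rw [← Real.mul_rpow hs0.le (by positivity)]
        apply Real.rpow_le_rpow (by positivity) _ hρ
        have : s * (1 + u / s) = s + u := by field_simp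
        rw [this]
        linarith
      calc s ^ ρ * (Real.exp (-u) * cnt h (u / s)) ≤
          s ^ ρ * (Real.exp (-u) * (C * (1 + u / s) ^ ρ)) := by
            gcongr
            exact hC _ (by positivity)
        _ = C * (Real.exp (-u) * (s ^ ρ * (1 + u / s) ^ ρ)) := by ring
        _ ≤ _ := by gcongr
    · filter_upwards [ae_restrict_mem measurableSet_Ioi] with u hu
      have hu0 : (0 : ℝ) < u := hu
      have h6 : Tendsto (fun s : ℝ => u / s) (𝓝[>] 0) atTop :=
        Tendsto.const_mul_atTop hu0 tendsto_inv_nhdsGT_zero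
      have h7 := (hlim.comp h6).const_mul (Real.exp (-u) * u ^ ρ)
      have h8 : Real.exp (-u) * (κ * u ^ ρ) = Real.exp (-u) * u ^ ρ * κ := by ring
      rw [h8]
      refine h7.congr' ?_
      filter_upwards [self_mem_nhdsWithin] with s hs
      have hs0 : (0 : ℝ) < s := hs
      simp only [Function.comp_apply]
      rw [Real.div_rpow hu0.le hs0.le]
      have := Real.rpow_pos_of_pos hu0 ρ
      have := Real.rpow_pos_of_pos hs0 ρ
      field_simp
  refine hdct.congr' ?_
  filter_upwards [self_mem_nhdsWithin] with s hs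
  exact (hsub s hs).symm

end Pool.Agent.TH942
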