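import Mathlib
import Pool.Agent.TH942.Ner
import Pool.Agent.TH942.Zeta
import Pool.Agent.W263.BSD.Defs
import Pool.Agent.W189.ML.Final

/-!
# Limits at `s = 1`
-/

set_option autoImplicit false
set_option linter.unusedSectionVars false

open MeasureTheory Filter Topology Set
open Pool.Agent.W263.BSD

namespace Pool.Agent.TH942

lemma fact_ne (m : ℕ) : (m.factorial : ℂ) ≠ 0 := by exact_mod_cast m.factorial_ne_zero

/-- The leading term of an entire function. -/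
theorem lead_lim {F : ℂ → ℂ} (hF : Differentiable ℂ F) {m : ℕ} (hm : analyticOrderAt F 1 = m) :
    iteratedDeriv m F 1 / m.factorial ≠ 0 ∧
    Tendsto (fun s : ℝ => F (1 + s) / (s : ℂ) ^ m) (𝓝[>] 0)
      (𝓝 (iteratedDeriv m F 1 / m.factorial)) := by
  have hFa : AnalyticAt ℂ F 1 := hF.analyticAt 1
  have h1 := (natCast_le_analyticOrderAt_iff_iteratedDeriv_eq_zero hFa (n := m)).mp hm.ge
  have hne : iteratedDeriv m F 1 ≠ 0 := by
    intro h0
    have h2 : ((m + 1 : ℕ) : ℕ∞) ≤ analyticOrderAt F 1 := by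
      rw [natCast_le_analyticOrderAt_iff_iteratedDeriv_eq_zero hFa]
      intro i hi
      rcases Nat.lt_succ_iff_lt_or_eq.1 hi with h3 | h3
      · exact h1 i h3
      · rw [h3]; exact h0
    rw [hm] at h2
    have h3 : m + 1 ≤ m := by exact_mod_cast h2
    omega
  refine ⟨div_ne_zero hne (fact_ne m), ?_⟩
  have hfa : AnalyticAt ℂ (fun w : ℂ => F (1 + w)) 0 := by
    have : Differentiable ℂ (fun w : ℂ => F (1 + w)) := hF.comp (by fun_prop)
    exact this.analyticAt 0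
  obtain ⟨G, hG, hG'⟩ := hfa.exists_eq_sum_add_pow_mul (m + 1)
  have h4 : ∀ i, iteratedDeriv i (fun w : ℂ => F (1 + w)) 0 = iteratedDeriv i F 1 := by
    intro i
    rw [iteratedDeriv_comp_const_add]
    simp
  have h5 : ∀ w : ℂ, F (1 + w) = w ^ m * (iteratedDeriv m F 1 / (m.factorial : ℂ) + w * G w) := by
    intro w
    rw [hG' w, Finset.sum_range_succ, Finset.sum_eq_zero, h4, zero_add, smul_eq_mul, smul_eq_mul]
    · ring
    · intro i hi
      rw [h4, h1 i (Finset.mem_range.mp hi), smul_zero]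
  have hc : Tendsto (fun s : ℝ => (s : ℂ)) (𝓝[>] 0) (𝓝 0) := by
    have : Tendsto (fun s : ℝ => (s : ℂ)) (𝓝 0) (𝓝 ((0 : ℝ) : ℂ)) :=
      Complex.continuous_ofReal.tendsto 0
    rw [Complex.ofReal_zero] at this
    exact this.mono_left nhdsWithin_le_nhds
  have h6 : Tendsto (fun s : ℝ => iteratedDeriv m F 1 / (m.factorial : ℂ) + (s : ℂ) * G s) (𝓝[>] 0)
      (𝓝 (iteratedDeriv m F 1 / (m.factorial : ℂ) + 0 * G 0)) :=
    tendsto_const_nhds.add (hc.mul (hG.continuousAt.tendsto.comp hc))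
  rw [zero_mul, add_zero] at h6
  refine h6.congr' ?_
  filter_upwards [self_mem_nhdsWithin] with s hs
  have hs0 : (s : ℂ) ≠ 0 := by
    have : (0 : ℝ) < s := hs
    exact_mod_cast this.ne'
  rw [h5]
  field_simp

/-- uniqueness of the order and of the leading coefficient -/
theorem pow_unique' {f : ℝ → ℂ} {m ρ : ℕ} {c₁ c₀ : ℂ}
    (h1 : Tendsto (fun s : ℝ => f s / (s : ℂ) ^ m) (𝓝[>] 0) (𝓝 c₁))
    (h0 : Tendsto (fun s : ℝ => f s / (s : ℂ) ^ ρ) (𝓝[>] 0) (𝓝 c₀)) (hc₁ : c₁ ≠ 0)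
    (hc₀ : c₀ ≠ 0) : m = ρ ∧ c₁ = c₀ := by
  have key : ∀ {m ρ : ℕ} {c₁ c₀ : ℂ}, m < ρ →
      Tendsto (fun s : ℝ => f s / (s : ℂ) ^ m) (𝓝[>] 0) (𝓝 c₁) →
      Tendsto (fun s : ℝ => f s / (s : ℂ) ^ ρ) (𝓝[>] 0) (𝓝 c₀) → c₁ = 0 := by
    intro m ρ c₁ c₀ hlt h1 h0
    have h2 : Tendsto (fun s : ℝ => (s : ℂ) ^ (ρ - m)) (𝓝[>] 0) (𝓝 0) := by
      have h3 : Tendsto (fun s : ℝ => (s : ℂ) ^ (ρ - m)) (𝓝 0) (𝓝 (((0 : ℝ) : ℂ) ^ (ρ - m))) :=
        (Complex.continuous_ofReal.pow _).tendsto 0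
      rw [Complex.ofReal_zero, zero_pow (by omega)] at h3
      exact h3.mono_left nhdsWithin_le_nhds
    have h3 := h0.mul h2
    rw [mul_zero] at h3
    refine tendsto_nhds_unique h1 (h3.congr' ?_)
    filter_upwards [self_mem_nhdsWithin] with s hs
    have hs0 : (s : ℂ) ≠ 0 := by
      have : (0 : ℝ) < s := hs
      exact_mod_cast this.ne'
    have h4 : (s : ℂ) ^ ρ = (s : ℂ) ^ (ρ - m) * (s : ℂ) ^ m := by
      rw [← pow_add]; congr 1; omega
    rw [h4]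
    field_simp
  rcases lt_trichotomy m ρ with h | h | h
  · exact absurd (key h h1 h0) hc₁
  · subst h
    exact ⟨rfl, tendsto_nhds_unique h1 h0⟩
  · exact absurd (key h h0 h1) hc₀

end Pool.Agent.TH942
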